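import Pool.Agent.H.MP_4977d9_al.Main

set_option autoImplicit false

namespace Pool.Agent.Results.MP_4977d9_al.Q1

universe v

theorem result (F : Type) [Field F] [Countable F]
    (U : Type v) [NonUnitalRing U] [Module F U] [IsScalarTower F U U] [SMulCommClass F U U]
    (halg : ∀ a : U, FiniteDimensional F (NonUnitalAlgebra.adjoin F {a}))
    (hdim : Module.rank F U ≤ Cardinal.aleph0) :
    ∃ (B : Type) (_ : NonUnitalRing B) (_ : Module F B) (_ : IsScalarTower F B B)
      (_ : SMulCommClass F B B),
      (∀ b : B, FiniteDimensional F (NonUnitalAlgebra.adjoin F {b})) ∧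
      Module.rank F B ≤ Cardinal.aleph0 ∧
      ¬ ∃ f : U →ₙₐ[F] B, Function.Surjective f := by
  by_contra h
  refine Pool.Agent.H.MP_4977d9_al.no_univ halg hdim fun B _ _ _ _ h1 h2 => ?_
  by_contra h3
  exact h ⟨B, _, _, inferInstance, inferInstance, h1, h2, h3⟩

end Pool.Agent.Results.MP_4977d9_al.Q1
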